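import Mathlib

/-!
# Flat manifolds, complex structures, affine automorphisms
-/

namespace Q47.FM

open Matrix

variable {ι : Type} [Fintype ι]

/-- `Γ` is a Bieberbach group acting on `ℝ^ι`: a discrete, cocompact, torsion-free group of
isometries of the Euclidean space `ℝ^ι`. (Discreteness: for all `r` only finitely many elements of `Γ`
map the origin into the cube `[-r, r]^ι`. Cocompactness: there is a cube `[-r, r]^ι` which meets every
orbit.) -/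
structure IsBieberbach (Γ : Subgroup (Equiv.Perm (ι → ℝ))) : Prop where
  isometry : ∀ γ ∈ Γ, ∀ x y : ι → ℝ, ∑ i, (γ x i - γ y i) ^ 2 = ∑ i, (x i - y i) ^ 2
  discrete : ∀ r : ℝ, {γ | γ ∈ Γ ∧ ∀ i, |γ 0 i| ≤ r}.Finite
  cocompact : ∃ r : ℝ, ∀ x : ι → ℝ, ∃ γ ∈ Γ, ∀ i, |γ x i| ≤ r
  torsionFree : ∀ γ ∈ Γ, ∀ k : ℕ, 0 < k → γ ^ k = 1 → γ = 1

/-- The first Betti number of the flat manifold `M = ℝ^ι / Γ` with fundamental group `Γ` vanishes:
`H¹(M; ℝ) = Hom(Γ, ℝ) = 0`. -/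
def FirstBettiZero (Γ : Subgroup (Equiv.Perm (ι → ℝ))) : Prop :=
  ∀ f : Γ →* Multiplicative ℝ, f = 1

/-- The linear part `v ↦ γ v - γ 0` of an isometry `γ`. -/
def linPart (γ : Equiv.Perm (ι → ℝ)) (v : ι → ℝ) : ι → ℝ := γ v - γ 0

/-- A complex structure on `M = ℝ^ι / Γ`: a matrix `J` with `J² = -1` which commutes with the
linear part of every element of `Γ` (that is, with every element of the holonomy group). -/
structure IsComplexStructure [DecidableEq ι] (Γ : Subgroup (Equiv.Perm (ι → ℝ)))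
    (J : Matrix ι ι ℝ) : Prop where
  sq : J * J = -1
  comm : ∀ γ ∈ Γ, ∀ v : ι → ℝ, J *ᵥ linPart γ v = linPart γ (J *ᵥ v)

omit [Fintype ι] in
/-- Two points of `ℝ^ι` are equivalent if they are in the same `Γ`-orbit. -/
def orbitSetoid (Γ : Subgroup (Equiv.Perm (ι → ℝ))) : Setoid (ι → ℝ) where
  r x y := ∃ γ ∈ Γ, γ x = y
  iseqv :=
    { refl := fun x => ⟨1, Γ.one_mem, rfl⟩
      symm := by
        rintro x y ⟨γ, hγ, rfl⟩
        exact ⟨γ⁻¹, Γ.inv_mem hγ, Equiv.symm_apply_apply γ x⟩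
      trans := by
        rintro x y z ⟨γ, hγ, rfl⟩ ⟨γ', hγ', rfl⟩
        exact ⟨γ' * γ, Γ.mul_mem hγ' hγ, rfl⟩ }

/-- `Aut(M, J)`: the set of all bijections `f` of `M = ℝ^ι / Γ` which have a lift `x ↦ B x + b` to
`ℝ^ι` with `B ∈ GL(ι, ℝ)` such that `B` commutes with `J`. -/
def autSet [DecidableEq ι] (Γ : Subgroup (Equiv.Perm (ι → ℝ))) (J : Matrix ι ι ℝ) :
    Set (Equiv.Perm (Quotient (orbitSetoid Γ))) :=
  {f | ∃ (B : Matrix ι ι ℝ) (b : ι → ℝ), IsUnit B ∧ B * J = J * B ∧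
    ∀ x, f (Quotient.mk (orbitSetoid Γ) x) = Quotient.mk (orbitSetoid Γ) (B *ᵥ x + b)}

end Q47.FM
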