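import Mathlib
import Pool.Agent.Q47.FM.Defs

/-!
# The Bieberbach group
-/

namespace Q47.FM

/-- the index set of rows -/
abbrev R := Fin 3 ⊕ ZMod 5

/-- the index set of the coordinates -/
abbrev I := R × Fin 2

/-- the parities of the three distinguished coordinates -/
def ep (t : I → ℤ) (i : Fin 3) : ℤˣ := (t (Sum.inl i, 0)).negOnePow

/-- signs -/
def sg (t : I → ℤ) : R → ℤˣ
  | Sum.inl i => ep t (i + 2)
  | Sum.inr _ => ep t 2

/-- the shift -/
def sft (t : I → ℤ) : ZMod 5 := ((t (Sum.inl 2, 0) : ℤ) : ZMod 5)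

/-- permutations -/
def pm (t : I → ℤ) : R → R
  | Sum.inl i => Sum.inl i
  | Sum.inr j => Sum.inr (ep t 1 • (j - sft t))

/-- inverse permutations -/
def pm' (t : I → ℤ) : R → R
  | Sum.inl i => Sum.inl i
  | Sum.inr j => Sum.inr (ep t 1 • j + sft t)

lemma uu (u : ℤˣ) {M : Type*} [AddCommGroup M] (x : M) : u • u • x = x := by
  rw [smul_smul, Int.units_mul_self, one_smul]

lemma pm_pm' (t : I → ℤ) (i : R) : pm t (pm' t i) = i := by
  rcases i with i | j
  · rfl
  · simp [pm, pm', uu]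

lemma pm'_pm (t : I → ℤ) (i : R) : pm' t (pm t i) = i := by
  rcases i with i | j
  · rfl
  · simp [pm, pm', uu]

lemma sg_pm (s t : I → ℤ) (i : R) : sg s (pm t i) = sg s i := by
  rcases i with i | j <;> rfl

lemma sg_pm' (s t : I → ℤ) (i : R) : sg s (pm' t i) = sg s i := by
  rcases i with i | j <;> rfl

/-- the composition of parameters -/
def cmp (s t : I → ℤ) : I → ℤ := fun i => sg s i.1 • t (pm s i.1, i.2) + s i

/-- the inverse parameters -/
def ivt (t : I → ℤ) : I → ℤ := fun i => -(sg t i.1 • t (pm' t i.1, i.2))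

lemma negOnePow_smul (u : ℤˣ) (a : ℤ) : (u • a).negOnePow = a.negOnePow := by
  rcases Int.units_eq_one_or u with h | h
  · rw [h, one_smul]
  · rw [h, Units.neg_smul, one_smul, Int.negOnePow_neg]

lemma cast_smul (u : ℤˣ) (a : ℤ) : ((u • a : ℤ) : ZMod 5) = u • (a : ZMod 5) := by
  rcases Int.units_eq_one_or u with h | h
  · rw [h, one_smul, one_smul]
  · rw [h, Units.neg_smul, one_smul, Units.neg_smul, one_smul, Int.cast_neg]

lemma castR_smul (u : ℤˣ) (a : ℤ) : ((u • a : ℤ) : ℝ) = u • (a : ℝ) := by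
  rcases Int.units_eq_one_or u with h | h
  · rw [h, one_smul, one_smul]
  · rw [h, Units.neg_smul, one_smul, Units.neg_smul, one_smul, Int.cast_neg]

lemma cmp_inl (s t : I → ℤ) (i : Fin 3) (a : Fin 2) :
    cmp s t (Sum.inl i, a) = ep s (i + 2) • t (Sum.inl i, a) + s (Sum.inl i, a) := rfl

lemma ep_cmp (s t : I → ℤ) (i : Fin 3) : ep (cmp s t) i = ep s i * ep t i := by
  rw [ep, cmp_inl, Int.negOnePow_add, negOnePow_smul, mul_comm]
  rfl

lemma ep_ivt (t : I → ℤ) (i : Fin 3) : ep (ivt t) i = ep t i := by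
  change (-(_ • t (Sum.inl i, 0))).negOnePow = _
  rw [Int.negOnePow_neg, negOnePow_smul]
  rfl

lemma sg_cmp (s t : I → ℤ) (i : R) : sg (cmp s t) i = sg s i * sg t i := by
  rcases i with i | j
  · exact ep_cmp s t _
  · exact ep_cmp s t _

lemma sg_ivt (t : I → ℤ) (i : R) : sg (ivt t) i = sg t i := by
  rcases i with i | j
  · exact ep_ivt t _
  · exact ep_ivt t _

lemma sft_cmp (s t : I → ℤ) : sft (cmp s t) = ep s 1 • sft t + sft s := by
  rw [sft, cmp_inl, Int.cast_add, cast_smul]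
  rfl

lemma pm_cmp (s t : I → ℤ) (i : R) : pm (cmp s t) i = pm t (pm s i) := by
  rcases i with i | j
  · rfl
  · simp only [pm, sft_cmp, ep_cmp]
    congr 1
    rw [mul_comm, mul_smul]
    congr 1
    rw [sub_add_eq_sub_sub_swap, smul_sub, uu]

lemma cmp_ivt (t : I → ℤ) : cmp t (ivt t) = 0 := by
  funext ⟨i, a⟩
  simp only [cmp, ivt, sg_pm, pm'_pm, smul_neg, uu, Pi.zero_apply, neg_add_cancel]

/-- the permutation of the coordinates -/
def pe (t : I → ℤ) : I ≃ I where
  toFun i := (pm t i.1, i.2)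
  invFun i := (pm' t i.1, i.2)
  left_inv i := by simp only [pm'_pm]
  right_inv i := by simp only [pm_pm']

/-- the linear isometries -/
def lin {A : Type*} [AddCommGroup A] (t : I → ℤ) (x : I → A) : I → A :=
  fun i => sg t i.1 • x (pm t i.1, i.2)

lemma lin_apply {A : Type*} [AddCommGroup A] (t : I → ℤ) (x : I → A) (i : R) (a : Fin 2) :
    lin t x (i, a) = sg t i • x (pm t i, a) := rfl

lemma lin_add {A : Type*} [AddCommGroup A] (t : I → ℤ) (x y : I → A) :
    lin t (x + y) = lin t x + lin t y := by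
  funext i
  simp [lin, smul_add]

lemma lin_zero {A : Type*} [AddCommGroup A] (t : I → ℤ) : lin t (0 : I → A) = 0 := by
  funext i
  simp [lin]

/-- an integer vector as a real vector -/
def vec (t : I → ℤ) : I → ℝ := fun i => (t i : ℝ)

/-- the underlying map -/
noncomputable def el' (t : I → ℤ) (x : I → ℝ) : I → ℝ := lin t x + vec t

lemma el'_cmp (s t : I → ℤ) (x : I → ℝ) : el' s (el' t x) = el' (cmp s t) x := by
  funext ⟨i, a⟩
  simp only [el', Pi.add_apply, lin_apply, vec, sg_cmp, pm_cmp, sg_pm, cmp, Int.cast_add,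
    castR_smul, smul_add, smul_smul, add_assoc]

lemma el'_zero (x : I → ℝ) : el' 0 x = x := by
  funext ⟨i, a⟩
  rcases i with i | j <;> simp [el', lin, sg, pm, ep, sft, vec]

lemma ivt_ivt (t : I → ℤ) : cmp (ivt t) t = 0 := by
  -- a left inverse of `t` is also a right inverse
  have assoc : ∀ a b c : I → ℤ, cmp (cmp a b) c = cmp a (cmp b c) := by
    intro a b c
    funext ⟨i, k⟩
    simp only [cmp, pm_cmp, sg_cmp, sg_pm, smul_add, smul_smul, add_assoc]
  have cz : ∀ a : I → ℤ, cmp a 0 = a := by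
    intro a
    funext ⟨i, k⟩
    simp [cmp]
  have zc : ∀ a : I → ℤ, cmp 0 a = a := by
    intro a
    funext ⟨i, k⟩
    rcases i with i | j <;> simp [cmp, sg, pm, ep, sft]
  calc cmp (ivt t) t = cmp (cmp (ivt t) t) 0 := (cz _).symm
    _ = cmp (cmp (ivt t) t) (cmp (ivt t) (ivt (ivt t))) := by rw [cmp_ivt]
    _ = cmp (ivt t) (cmp (cmp t (ivt t)) (ivt (ivt t))) := by rw [assoc, assoc]
    _ = cmp (ivt t) (ivt (ivt t)) := by rw [cmp_ivt, zc]
    _ = 0 := cmp_ivt _

/-- the affine isometries -/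
noncomputable def el (t : I → ℤ) : Equiv.Perm (I → ℝ) where
  toFun := el' t
  invFun := el' (ivt t)
  left_inv x := by rw [el'_cmp, ivt_ivt, el'_zero]
  right_inv x := by rw [el'_cmp, cmp_ivt, el'_zero]

lemma el_apply' (t : I → ℤ) (x : I → ℝ) : el t x = lin t x + vec t := rfl

lemma el_apply (t : I → ℤ) (x : I → ℝ) (i : R) (a : Fin 2) :
    el t x (i, a) = sg t i • x (pm t i, a) + t (i, a) := rfl

lemma el_linear (t : I → ℤ) (x : I → ℝ) : linPart (el t) x = lin t x := by
  rw [linPart, el_apply', el_apply', lin_zero]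
  abel

lemma el_mul (s t : I → ℤ) : el s * el t = el (cmp s t) := by
  ext1 x
  exact el'_cmp s t x

lemma el_zero : el 0 = 1 := by
  ext1 x
  exact el'_zero x

/-- the parity condition -/
def ok (t : I → ℤ) : Prop := ep t 0 * ep t 1 * ep t 2 = 1

/-- the Bieberbach group -/
def Gam : Subgroup (Equiv.Perm (I → ℝ)) where
  carrier := {γ | ∃ t, ok t ∧ el t = γ}
  one_mem' := ⟨0, by simp [ok, ep], el_zero⟩
  mul_mem' := by
    rintro _ _ ⟨s, hs, rfl⟩ ⟨t, ht, rfl⟩
    refine ⟨cmp s t, ?_, (el_mul s t).symm⟩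
    unfold ok at *
    simp only [ep_cmp]
    rw [mul_mul_mul_comm (ep s 0), mul_mul_mul_comm, hs, ht, mul_one]
  inv_mem' := by
    rintro _ ⟨t, ht, rfl⟩
    refine ⟨ivt t, ?_, ?_⟩
    · unfold ok at *
      simpa only [ep_ivt] using ht
    · exact eq_inv_of_mul_eq_one_right (by rw [el_mul, cmp_ivt, el_zero])

lemma mem_Gam {γ : Equiv.Perm (I → ℝ)} : γ ∈ Gam ↔ ∃ t, ok t ∧ el t = γ := Iff.rfl

lemma el_mem {t : I → ℤ} (h : ok t) : el t ∈ Gam := ⟨t, h, rfl⟩

end Q47.FM
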