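import Mathlib
import Pool.Agent.Q47.FM.Grp

/-!
# The group is a Bieberbach group
-/

namespace Q47.FM

/-! ### Pure translations -/

/-- the parameters with trivial linear part -/
structure Pure (t : I → ℤ) : Prop where
  sg : ∀ i, sg t i = 1
  pm : ∀ i, pm t i = i

lemma Pure.apply {t : I → ℤ} (h : Pure t) (x : I → ℝ) : el t x = x + vec t := by
  funext ⟨i, a⟩
  rw [el_apply, h.sg, h.pm, one_smul]
  rfl

lemma Pure.ep {t : I → ℤ} (h : Pure t) (i : Fin 3) : ep t i = 1 := by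
  have := h.sg (Sum.inl (i + 1))
  change Q47.FM.ep t (i + 1 + 2) = 1 at this
  have e : i + 1 + 2 = i := by
    rw [add_assoc]
    exact add_zero i
  rwa [e] at this

lemma Pure.ok {t : I → ℤ} (h : Pure t) : ok t := by
  unfold Q47.FM.ok
  rw [h.ep, h.ep, h.ep, one_mul, one_mul]

lemma pure_of_dvd {t : I → ℤ} (h : ∀ i, (10 : ℤ) ∣ t i) : Pure t := by
  have hep : ∀ i, ep t i = 1 := by
    intro i
    rw [ep, Int.negOnePow_eq_one_iff]
    obtain ⟨k, hk⟩ := h (Sum.inl i, 0)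
    exact ⟨5 * k, by rw [hk]; ring⟩
  constructor
  · rintro (i | j)
    · exact hep _
    · exact hep _
  · rintro (i | j)
    · rfl
    · simp only [Q47.FM.pm, hep, one_smul, sft]
      obtain ⟨k, hk⟩ := h (Sum.inl 2, 0)
      have : ((t (Sum.inl 2, 0) : ℤ) : ZMod 5) = 0 := by
        rw [ZMod.intCast_zmod_eq_zero_iff_dvd]
        exact ⟨2 * k, by rw [hk]; push_cast; ring⟩
      rw [this, sub_zero]

lemma pow_apply {γ : Equiv.Perm (I → ℝ)} {w : I → ℝ} (h : ∀ x, γ x = x + w) (k : ℕ) (x : I → ℝ) :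
    (γ ^ k) x = x + (k : ℝ) • w := by
  induction k generalizing x with
  | zero => simp
  | succ k ih =>
    rw [pow_succ, Equiv.Perm.mul_apply, h, ih]
    push_cast
    module

/-! ### The axioms of a Bieberbach group -/

lemma isometry (γ : Equiv.Perm (I → ℝ)) (hγ : γ ∈ Gam) (x y : I → ℝ) :
    ∑ i, (γ x i - γ y i) ^ 2 = ∑ i, (x i - y i) ^ 2 := by
  obtain ⟨t, _, rfl⟩ := hγ
  rw [← Equiv.sum_comp (pe t) (fun i => (x i - y i) ^ 2)]
  refine Finset.sum_congr rfl fun i _ => ?_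
  obtain ⟨i, a⟩ := i
  rw [el_apply, el_apply, add_sub_add_right_eq_sub, ← smul_sub]
  change (sg t i • (x (pm t i, a) - y (pm t i, a))) ^ 2 = (x (pm t i, a) - y (pm t i, a)) ^ 2
  rcases Int.units_eq_one_or (sg t i) with h | h
  · rw [h, one_smul]
  · rw [h, Units.neg_smul, one_smul, neg_sq]

lemma discrete (r : ℝ) : {γ | γ ∈ Gam ∧ ∀ i, |γ 0 i| ≤ r}.Finite := by
  obtain ⟨N, hN⟩ := exists_nat_ge r
  have hfin : (Set.Icc (fun _ : I => -(N : ℤ)) (fun _ => (N : ℤ))).Finite := Set.finite_Icc _ _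
  refine (hfin.image el).subset ?_
  rintro _ ⟨⟨t, _, rfl⟩, hd⟩
  refine ⟨t, ?_, rfl⟩
  have key : ∀ i, |(t i : ℝ)| ≤ N := by
    rintro ⟨i, a⟩
    have h1 := hd (i, a)
    rw [el_apply, Pi.zero_apply, smul_zero, zero_add] at h1
    exact h1.trans hN
  constructor
  · intro i
    have := (abs_le.1 (key i)).1
    exact_mod_cast this
  · intro i
    have := (abs_le.1 (key i)).2
    exact_mod_cast this

lemma cocompact : ∃ r : ℝ, ∀ x : I → ℝ, ∃ γ ∈ Gam, ∀ i, |γ x i| ≤ r := by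
  refine ⟨5, fun x => ?_⟩
  let t : I → ℤ := fun i => 10 * (-round (x i / 10))
  have ht : Pure t := pure_of_dvd fun i => ⟨_, rfl⟩
  refine ⟨el t, el_mem ht.ok, fun i => ?_⟩
  rw [ht.apply]
  have h1 := abs_sub_round (x i / 10)
  have h2 : (x + vec t) i = 10 * (x i / 10 - round (x i / 10)) := by
    change x i + ((10 * (-round (x i / 10)) : ℤ) : ℝ) = _
    push_cast
    ring
  rw [h2, abs_mul]
  have h3 : |(10 : ℝ)| = 10 := abs_of_pos (by norm_num)
  rw [h3]
  linarith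

/-! ### Torsion-freeness -/

lemma pow_inl {t : I → ℤ} {i : Fin 3} (h : sg t (Sum.inl i) = 1) (k : ℕ) (x : I → ℝ) :
    (el t ^ k) x (Sum.inl i, 0) = x (Sum.inl i, 0) + k * t (Sum.inl i, 0) := by
  induction k generalizing x with
  | zero => simp
  | succ k ih =>
    rw [pow_succ, Equiv.Perm.mul_apply, ih, el_apply, h, one_smul]
    simp only [pm]
    push_cast
    ring

lemma torsionFree (γ : Equiv.Perm (I → ℝ)) (hγ : γ ∈ Gam) (k : ℕ) (hk : 0 < k) (h : γ ^ k = 1) :
    γ = 1 := by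
  obtain ⟨t, ht, rfl⟩ := hγ
  have hk' : (k : ℝ) ≠ 0 := Nat.cast_ne_zero.2 hk.ne'
  have step : ∀ i : Fin 3, ep t (i + 2) = 1 → t (Sum.inl i, 0) = 0 := by
    intro i hi
    have h1 := pow_inl (t := t) (i := i) hi k 0
    rw [h] at h1
    simp only [Equiv.Perm.coe_one, id_eq, Pi.zero_apply, zero_add] at h1
    have h2 := (mul_eq_zero.1 h1.symm).resolve_left hk'
    exact_mod_cast h2
  have step2 : ∀ i : Fin 3, ep t (i + 2) = 1 → ep t i = 1 := by
    intro i hi
    rw [ep, step i hi, Int.negOnePow_zero]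
  have s0 : ep t 2 = 1 → ep t 0 = 1 := step2 0
  have s1 : ep t 0 = 1 → ep t 1 = 1 := step2 1
  have s2 : ep t 1 = 1 → ep t 2 = 1 := step2 2
  have hall : ep t 0 = 1 ∧ ep t 1 = 1 ∧ ep t 2 = 1 := by
    rcases Int.units_eq_one_or (ep t 0) with h0 | h0
    · exact ⟨h0, s1 h0, s2 (s1 h0)⟩
    rcases Int.units_eq_one_or (ep t 1) with h1 | h1
    · exact ⟨s0 (s2 h1), h1, s2 h1⟩
    rcases Int.units_eq_one_or (ep t 2) with h2 | h2
    · exact ⟨s0 h2, s1 (s0 h2), h2⟩
    exfalso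
    unfold ok at ht
    rw [h0, h1, h2] at ht
    exact absurd ht (by decide)
  obtain ⟨e0, e1, e2⟩ := hall
  have hep : ∀ i, ep t i = 1 := by
    intro i
    fin_cases i
    · exact e0
    · exact e1
    · exact e2
  have hz : t (Sum.inl 2, 0) = 0 := step 2 (hep _)
  have hP : Pure t := by
    constructor
    · rintro (i | j)
      · exact hep _
      · exact hep _
    · rintro (i | j)
      · rfl
      · simp only [pm, hep, one_smul, sft, hz, Int.cast_zero, sub_zero]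
  have h4 := pow_apply hP.apply k 0
  rw [h] at h4
  simp only [Equiv.Perm.coe_one, id_eq, zero_add] at h4
  have h5 := (smul_eq_zero.1 h4.symm).resolve_left hk'
  ext1 x
  rw [hP.apply, h5, add_zero]
  rfl

theorem isBieberbach : IsBieberbach Gam :=
  ⟨isometry, discrete, cocompact, torsionFree⟩

end Q47.FM
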