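import Mathlib
import Pool.Agent.Q47.FM.Bieb

/-!
# The first Betti number vanishes
-/

namespace Q47.FM

/-- an element of the group -/
noncomputable def gel (t : I → ℤ) (h : ok t) : Gam := ⟨el t, el_mem h⟩

lemma vec_add (s t : I → ℤ) : vec (s + t) = vec s + vec t := by
  ext i
  simp [vec]

section

variable (f : Gam →* Multiplicative ℝ)

/-- the additive version -/
noncomputable def F (γ : Gam) : ℝ := Multiplicative.toAdd (f γ)

lemma F_mul (a b : Gam) : F f (a * b) = F f a + F f b := by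
  simp [F]

lemma F_pow (a : Gam) (k : ℕ) : F f (a ^ k) = k * F f a := by
  simp [F]

lemma F_conj (a b : Gam) : F f (a * b * a⁻¹) = F f b := by
  simp [F]

/-- translations by multiples of `10` -/
noncomputable def tr (t : I → ℤ) : Gam := gel (fun i => 10 * t i) (pure_of_dvd fun _ => ⟨_, rfl⟩).ok

lemma tr_apply (t : I → ℤ) (x : I → ℝ) : (tr t : Equiv.Perm (I → ℝ)) x = x + vec (fun i => 10 * t i) :=
  (pure_of_dvd fun _ => ⟨_, rfl⟩ : Pure (fun i => 10 * t i)).apply x

lemma tr_add (s t : I → ℤ) : tr (s + t) = tr s * tr t := by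
  apply Subtype.ext
  ext1 x
  rw [Subgroup.coe_mul, Equiv.Perm.mul_apply, tr_apply, tr_apply,
    tr_apply, add_assoc, ← vec_add]
  congr 2
  funext i
  simp only [Pi.add_apply]
  ring

lemma tr_conj (s : I → ℤ) (hs : ok s) (t : I → ℤ) :
    gel s hs * tr t * (gel s hs)⁻¹ = tr (fun i => sg s i.1 • t (pm s i.1, i.2)) := by
  rw [mul_inv_eq_iff_eq_mul]
  apply Subtype.ext
  ext1 x
  funext ⟨i, a⟩
  rw [Subgroup.coe_mul, Equiv.Perm.mul_apply, tr_apply,
    Subgroup.coe_mul, Equiv.Perm.mul_apply, tr_apply]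
  change el s _ (i, a) = (el s x + _) (i, a)
  rw [el_apply, Pi.add_apply, Pi.add_apply, el_apply]
  change sg s i • (_ + (((10 * t (pm s i, a) : ℤ)) : ℝ)) + _ = _ +
    ((10 * (sg s i • t (pm s i, a)) : ℤ) : ℝ)
  push_cast
  rw [castR_smul, smul_add]
  have : sg s i • (10 * (t (pm s i, a) : ℝ)) = 10 * (sg s i • (t (pm s i, a) : ℝ)) :=
    (mul_smul_comm _ _ _).symm
  rw [this]
  ring

/-- If an element acts by `-1` on `t`, then `F` vanishes on the translation by `t`. -/
lemma F_tr_eq_zero (s : I → ℤ) (hs : ok s) (t : I → ℤ)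
    (h : ∀ i a, sg s i • t (pm s i, a) = - t (i, a)) : F f (tr t) = 0 := by
  have h1 := F_conj f (gel s hs) (tr t)
  rw [tr_conj] at h1
  have h2 : (fun i : I => sg s i.1 • t (pm s i.1, i.2)) = -t := by
    funext ⟨i, a⟩
    exact h i a
  rw [h2] at h1
  have h3 : F f (tr (-t + t)) = F f (tr (-t)) + F f (tr t) := by rw [tr_add, F_mul]
  have h4 : F f (tr 0) = 0 := by
    have : F f (tr (0 + 0)) = F f (tr 0) + F f (tr 0) := by rw [tr_add, F_mul]
    rw [add_zero] at this
    linarith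
  rw [neg_add_cancel, h4, h1] at h3
  linarith

/-- the parameter `(5, 0, 5)` -/
def s3 : I → ℤ
  | (Sum.inl i, a) => if a = 0 then (if i = 1 then 0 else 5) else 0
  | (Sum.inr _, _) => 0

/-- the parameter `(5, 5, 0)` -/
def s1 : I → ℤ
  | (Sum.inl i, a) => if a = 0 then (if i = 2 then 0 else 5) else 0
  | (Sum.inr _, _) => 0

lemma s3_ep0 : ep s3 0 = -1 := by
  rw [ep, Int.negOnePow_eq_neg_one_iff]; exact ⟨2, rfl⟩

lemma s3_ep1 : ep s3 1 = 1 := by
  rw [ep, Int.negOnePow_eq_one_iff]; exact ⟨0, rfl⟩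

lemma s3_ep2 : ep s3 2 = -1 := by
  rw [ep, Int.negOnePow_eq_neg_one_iff]; exact ⟨2, rfl⟩

lemma s1_ep0 : ep s1 0 = -1 := by
  rw [ep, Int.negOnePow_eq_neg_one_iff]; exact ⟨2, rfl⟩

lemma s1_ep1 : ep s1 1 = -1 := by
  rw [ep, Int.negOnePow_eq_neg_one_iff]; exact ⟨2, rfl⟩

lemma s1_ep2 : ep s1 2 = 1 := by
  rw [ep, Int.negOnePow_eq_one_iff]; exact ⟨0, rfl⟩

lemma ok_s3 : ok s3 := by
  unfold ok
  rw [s3_ep0, s3_ep1, s3_ep2]
  decide

lemma ok_s1 : ok s1 := by
  unfold ok
  rw [s1_ep0, s1_ep1, s1_ep2]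
  decide

lemma F_tr (t : I → ℤ) : F f (tr t) = 0 := by
  let t' : I → ℤ := fun i => if i.1 = Sum.inl 2 then 0 else t i
  let t'' : I → ℤ := fun i => if i.1 = Sum.inl 2 then t i else 0
  have ht : t = t' + t'' := by
    funext i
    simp only [t', t'', Pi.add_apply]
    split_ifs <;> simp
  rw [ht, tr_add, F_mul]
  have e3 : sft s3 = 0 := by
    change ((5 : ℤ) : ZMod 5) = 0
    decide
  have h1 : F f (tr t') = 0 := by
    apply F_tr_eq_zero f s3 ok_s3
    rintro (i | j) a
    · simp only [pm, t']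
      fin_cases i
      · change ep s3 2 • _ = _
        rw [s3_ep2]
        simp
      · change ep s3 0 • _ = _
        rw [s3_ep0]
        simp
      · simp
    · change ep s3 2 • t' (Sum.inr (ep s3 1 • (j - sft s3)), a) = _
      rw [s3_ep2, s3_ep1, e3, one_smul, sub_zero]
      simp
  have h2 : F f (tr t'') = 0 := by
    apply F_tr_eq_zero f s1 ok_s1
    rintro (i | j) a
    · simp only [pm, t'']
      fin_cases i
      · simp
      · simp
      · change ep s1 1 • _ = _
        rw [s1_ep1]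
        simp
    · change ep s1 2 • t'' (Sum.inr _, a) = _
      simp [t'']
  rw [h1, h2, add_zero]

/-- `F` vanishes on pure translations. -/
lemma F_pure (t : I → ℤ) (ht : Pure t) : F f (gel t ht.ok) = 0 := by
  have h1 : (gel t ht.ok) ^ 10 = tr t := by
    apply Subtype.ext
    ext1 x
    rw [Subgroup.coe_pow, tr_apply]
    change (el t ^ 10) x = _
    rw [pow_apply ht.apply]
    congr 1
    ext i
    simp [vec]
  have h2 := F_pow f (gel t ht.ok) 10
  rw [h1, F_tr] at h2
  push_cast at h2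
  linarith

lemma ok_cmp {s t : I → ℤ} (hs : ok s) (ht : ok t) : ok (cmp s t) := by
  unfold ok at *
  simp only [ep_cmp]
  rw [mul_mul_mul_comm (ep s 0), mul_mul_mul_comm, hs, ht, mul_one]

lemma gel_mul {s t : I → ℤ} (hs : ok s) (ht : ok t) :
    gel s hs * gel t ht = gel (cmp s t) (ok_cmp hs ht) :=
  Subtype.ext (el_mul s t)

lemma F_eq_zero (γ : Gam) : F f γ = 0 := by
  obtain ⟨_, t, ht, rfl⟩ := γ
  change F f (gel t ht) = 0
  set u := cmp t t with hu
  have hu1 : ∀ i, ep u i = 1 := fun i => by rw [hu, ep_cmp, Int.units_mul_self]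
  set u2 := cmp u u
  have hu2 : ∀ i, ep u2 i = 1 := fun i => by rw [ep_cmp, Int.units_mul_self]
  set u4 := cmp u2 u2
  have hu4 : ∀ i, ep u4 i = 1 := fun i => by rw [ep_cmp, Int.units_mul_self]
  set u5 := cmp u4 u
  have hu5 : ∀ i, ep u5 i = 1 := fun i => by rw [ep_cmp, hu4, hu1, one_mul]
  have hs5 : sft u5 = 0 := by
    have e2 : sft u2 = 2 * sft u := by
      rw [sft_cmp, hu1, one_smul]; ring
    have e4 : sft u4 = 4 * sft u := by
      rw [sft_cmp, hu2, one_smul, e2]; ring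
    have e5 : sft u5 = 5 * sft u := by
      rw [sft_cmp, hu4, one_smul, e4]; ring
    rw [e5]
    have : (5 : ZMod 5) = 0 := by decide
    rw [this, zero_mul]
  have hP : Pure u5 := by
    constructor
    · rintro (i | j)
      · exact hu5 _
      · exact hu5 _
    · rintro (i | j)
      · rfl
      · simp only [pm, hu5, hs5, one_smul, sub_zero]
  have h1 : F f (gel u5 hP.ok) = 10 * F f (gel t ht) := by
    have o1 : ok u := ok_cmp ht ht
    have o2 : ok u2 := ok_cmp o1 o1
    have o4 : ok u4 := ok_cmp o2 o2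
    have g1 : gel t ht * gel t ht = gel u o1 := gel_mul ht ht
    have g2 : gel u o1 * gel u o1 = gel u2 o2 := gel_mul o1 o1
    have g4 : gel u2 o2 * gel u2 o2 = gel u4 o4 := gel_mul o2 o2
    have g5 : gel u4 o4 * gel u o1 = gel u5 hP.ok := gel_mul o4 o1
    rw [← g5, F_mul, ← g4, F_mul, ← g2, F_mul, ← g1, F_mul]
    ring
  rw [F_pure f u5 hP] at h1
  linarith

end

theorem firstBettiZero : FirstBettiZero Gam := by
  intro f
  ext γ
  exact F_eq_zero f γ

end Q47.FM
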