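import Mathlib
import Pool.Agent.Q47.FM.Betti

/-!
# Complex structures and an affine automorphism of infinite order commuting with all of them
-/

namespace Q47.FM

open Matrix

/-! ### The unit -/

/-- the element `T^c + T^{-c} - 1` of the group ring of the cyclic group of order `5`, acting on
vectors -/
def al {A : Type*} [AddCommGroup A] (c : ZMod 5) (x : I → A) : I → A
  | (Sum.inl i, a) => x (Sum.inl i, a)
  | (Sum.inr j, a) => x (Sum.inr (j - c), a) + x (Sum.inr (j + c), a) - x (Sum.inr j, a)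

lemma al_one_two {A : Type*} [AddCommGroup A] (x : I → A) : al 1 (al 2 x) = x := by
  funext ⟨i, a⟩
  rcases i with i | j
  · rfl
  · have e1 : j - 1 - 2 = j + 2 := by revert j; decide
    have e2 : j - 1 + 2 = j + 1 := by revert j; decide
    have e3 : j + 1 - 2 = j - 1 := by revert j; decide
    have e4 : j + 1 + 2 = j - 2 := by revert j; decide
    simp only [al, e1, e2, e3, e4]
    abel

lemma al_two_one {A : Type*} [AddCommGroup A] (x : I → A) : al 2 (al 1 x) = x := by
  funext ⟨i, a⟩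
  rcases i with i | j
  · rfl
  · have e1 : j - 2 - 1 = j + 2 := by revert j; decide
    have e2 : j - 2 + 1 = j - 1 := by revert j; decide
    have e3 : j + 2 - 1 = j + 1 := by revert j; decide
    have e4 : j + 2 + 1 = j - 2 := by revert j; decide
    simp only [al, e1, e2, e3, e4]
    abel

lemma al_add {A : Type*} [AddCommGroup A] (c : ZMod 5) (x y : I → A) :
    al c (x + y) = al c x + al c y := by
  funext ⟨i, a⟩
  rcases i with i | j
  · rfl
  · simp only [al, Pi.add_apply]
    abel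

lemma al_smul (c : ZMod 5) (r : ℝ) (x : I → ℝ) : al c (r • x) = r • al c x := by
  funext ⟨i, a⟩
  rcases i with i | j
  · rfl
  · simp only [al, Pi.smul_apply, smul_eq_mul]
    ring

/-- the linear part commutes with the unit -/
lemma al_lin {A : Type*} [AddCommGroup A] (c : ZMod 5) (t : I → ℤ) (x : I → A) :
    al c (lin t x) = lin t (al c x) := by
  funext ⟨i, a⟩
  rcases i with i | j
  · rfl
  · simp only [al, lin_apply, pm]
    change ep t 2 • _ + ep t 2 • _ - ep t 2 • _ = ep t 2 • _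
    rw [← smul_add, ← smul_sub]
    congr 1
    congr 1
    rcases Int.units_eq_one_or (ep t 1) with h | h
    · rw [h]
      simp only [one_smul]
      congr 3
      · ring_nf
      · ring_nf
    · rw [h]
      simp only [Units.neg_smul, one_smul]
      rw [add_comm]
      congr 3
      · ring_nf
      · ring_nf

/-- the linear maps given by the unit -/
noncomputable def alL (c : ZMod 5) : (I → ℝ) →ₗ[ℝ] (I → ℝ) where
  toFun x := al c x
  map_add' x y := al_add c x y
  map_smul' r x := al_smul c r x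

/-- the matrices -/
noncomputable def alM (c : ZMod 5) : Matrix I I ℝ := LinearMap.toMatrix' (alL c)

lemma alM_mulVec (c : ZMod 5) (x : I → ℝ) : alM c *ᵥ x = al c x :=
  LinearMap.toMatrix'_mulVec (alL c) x

lemma ext_mulVec {M N : Matrix I I ℝ} (h : ∀ x, M *ᵥ x = N *ᵥ x) : M = N := by
  apply Matrix.toLin'.injective
  ext1 i
  apply LinearMap.ext
  intro x
  exact h _

lemma alM_isUnit : IsUnit (alM 1) := by
  refine ⟨⟨alM 1, alM 2, ?_, ?_⟩, rfl⟩
  · apply ext_mulVec
    intro x
    rw [← Matrix.mulVec_mulVec, alM_mulVec, alM_mulVec, al_one_two, Matrix.one_mulVec]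
  · apply ext_mulVec
    intro x
    rw [← Matrix.mulVec_mulVec, alM_mulVec, alM_mulVec, al_two_one, Matrix.one_mulVec]

lemma al_vec (c : ZMod 5) (t : I → ℤ) : al c (vec t) = vec (al c t) := by
  funext ⟨i, a⟩
  rcases i with i | j
  · rfl
  · change (t _ : ℝ) + (t _ : ℝ) - (t _ : ℝ) = ((t _ + t _ - t _ : ℤ) : ℝ)
    push_cast
    rfl

lemma al_el (c : ZMod 5) (t : I → ℤ) (x : I → ℝ) : al c (el t x) = el (al c t) (al c x) := by
  rw [el_apply', el_apply', al_add, al_vec, al_lin]
  rfl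

lemma ok_al {c : ZMod 5} {t : I → ℤ} (h : ok t) : ok (al c t) := h

lemma al_rel (c : ZMod 5) {x y : I → ℝ} (h : (orbitSetoid Gam).r x y) :
    (orbitSetoid Gam).r (al c x) (al c y) := by
  obtain ⟨_, ⟨t, ht, rfl⟩, rfl⟩ := h
  exact ⟨el (al c t), el_mem (ok_al ht), (al_el c t x).symm⟩

/-- the automorphism of the flat manifold -/
noncomputable def f₀ : Equiv.Perm (Quotient (orbitSetoid Gam)) where
  toFun := Quotient.map' (al 1) fun _ _ h => al_rel 1 h
  invFun := Quotient.map' (al 2) fun _ _ h => al_rel 2 h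
  left_inv := by
    rintro ⟨x⟩
    change Quotient.mk (orbitSetoid Gam) (al 2 (al 1 x)) = _
    rw [al_two_one]
    rfl
  right_inv := by
    rintro ⟨x⟩
    change Quotient.mk (orbitSetoid Gam) (al 1 (al 2 x)) = _
    rw [al_one_two]
    rfl

lemma f₀_mk (x : I → ℝ) :
    f₀ (Quotient.mk (orbitSetoid Gam) x) = Quotient.mk (orbitSetoid Gam) (al 1 x) :=
  rfl

/-! ### Commutation with complex structures -/

/-- the parameter of the shift by `c` -/
def s6 (c : ℤ) : I → ℤ := fun i => if i = (Sum.inl 2, 0) then c else 0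

lemma s6_ep {c : ℤ} (hc : Even c) (i : Fin 3) : ep (s6 c) i = 1 := by
  rw [ep, Int.negOnePow_eq_one_iff, s6]
  split_ifs
  · exact hc
  · exact ⟨0, rfl⟩

lemma s6_lin {c : ℤ} (hc : Even c) (x : I → ℝ) (i : Fin 3) (a : Fin 2) :
    lin (s6 c) x (Sum.inl i, a) = x (Sum.inl i, a) := by
  rw [lin_apply]
  simp only [sg, pm, s6_ep hc, one_smul]

lemma s6_lin' {c : ℤ} (hc : Even c) (x : I → ℝ) (j : ZMod 5) (a : Fin 2) :
    lin (s6 c) x (Sum.inr j, a) = x (Sum.inr (j - (c : ZMod 5)), a) := by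
  rw [lin_apply]
  simp only [sg, pm, s6_ep hc, one_smul, sft]
  rfl

lemma al_eq (x : I → ℝ) : al 1 x = lin (s6 6) x + lin (s6 (-6)) x - x := by
  have h6 : Even (6 : ℤ) := ⟨3, rfl⟩
  have h6' : Even (-6 : ℤ) := ⟨-3, rfl⟩
  funext ⟨i, a⟩
  rw [Pi.sub_apply, Pi.add_apply]
  rcases i with i | j
  · rw [s6_lin h6, s6_lin h6']
    change x _ = _
    ring
  · rw [s6_lin' h6, s6_lin' h6']
    have e1 : ((6 : ℤ) : ZMod 5) = 1 := by decide
    have e2 : ((-6 : ℤ) : ZMod 5) = -1 := by decide
    rw [e1, e2, sub_neg_eq_add]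
    rfl

lemma ok_s6 {c : ℤ} (hc : Even c) : ok (s6 c) := by
  unfold ok
  rw [s6_ep hc, s6_ep hc, s6_ep hc]
  decide

lemma A_comm {J : Matrix I I ℝ} (hJ : IsComplexStructure Gam J) : alM 1 * J = J * alM 1 := by
  have h6 : Even (6 : ℤ) := ⟨3, rfl⟩
  have h6' : Even (-6 : ℤ) := ⟨-3, rfl⟩
  apply ext_mulVec
  intro v
  have h1 := hJ.comm _ (el_mem (ok_s6 h6)) v
  have h2 := hJ.comm _ (el_mem (ok_s6 h6')) v
  rw [el_linear, el_linear] at h1 h2
  rw [← Matrix.mulVec_mulVec, ← Matrix.mulVec_mulVec, alM_mulVec, alM_mulVec, al_eq, al_eq,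
    Matrix.mulVec_sub, Matrix.mulVec_add, h1, h2]

lemma f₀_pow_mem {J : Matrix I I ℝ} (hJ : IsComplexStructure Gam J) (k : ℕ) :
    f₀ ^ k ∈ autSet Gam J := by
  refine ⟨alM 1 ^ k, 0, alM_isUnit.pow k, ?_, ?_⟩
  · exact (Commute.pow_left (A_comm hJ) k)
  · induction k with
    | zero =>
      intro x
      simp
    | succ k ih =>
      intro x
      rw [pow_succ', Equiv.Perm.mul_apply, ih, f₀_mk, add_zero, add_zero, pow_succ',
        ← Matrix.mulVec_mulVec, alM_mulVec]

/-! ### A complex structure -/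

/-- the standard complex structure -/
noncomputable def J₀ : (I → ℝ) →ₗ[ℝ] (I → ℝ) where
  toFun x := fun i => if i.2 = 0 then -x (i.1, 1) else x (i.1, 0)
  map_add' x y := by
    funext ⟨i, a⟩
    simp only [Pi.add_apply]
    split_ifs <;> ring
  map_smul' r x := by
    funext ⟨i, a⟩
    simp only [Pi.smul_apply, smul_eq_mul, RingHom.id_apply]
    split_ifs <;> ring

lemma J₀_zero (x : I → ℝ) (i : R) : J₀ x (i, 0) = -x (i, 1) := rfl

lemma J₀_one (x : I → ℝ) (i : R) : J₀ x (i, 1) = x (i, 0) := rfl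

theorem J₀_isComplexStructure : IsComplexStructure Gam (LinearMap.toMatrix' J₀) where
  sq := by
    apply ext_mulVec
    intro v
    rw [← Matrix.mulVec_mulVec, LinearMap.toMatrix'_mulVec, LinearMap.toMatrix'_mulVec,
      Matrix.neg_mulVec, Matrix.one_mulVec]
    funext ⟨i, a⟩
    rw [Pi.neg_apply]
    fin_cases a
    · change J₀ (J₀ v) (i, 0) = - v (i, 0)
      rw [J₀_zero, J₀_one]
    · change J₀ (J₀ v) (i, 1) = - v (i, 1)
      rw [J₀_one, J₀_zero]
  comm := by
    rintro _ ⟨t, _, rfl⟩ v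
    rw [el_linear, el_linear, LinearMap.toMatrix'_mulVec, LinearMap.toMatrix'_mulVec]
    funext ⟨i, a⟩
    fin_cases a
    · change J₀ (lin t v) (i, 0) = lin t (J₀ v) (i, 0)
      rw [J₀_zero, lin_apply, lin_apply, J₀_zero, smul_neg]
    · change J₀ (lin t v) (i, 1) = lin t (J₀ v) (i, 1)
      rw [J₀_one, lin_apply, lin_apply, J₀_one]

/-! ### Infinite order -/

open Real in
/-- the entries of an eigenvector -/
noncomputable def w : ZMod 5 → ℝ :=
  ![2, -goldenRatio, goldenRatio - 1, goldenRatio - 1, -goldenRatio]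

open Real in
lemma w_eq (j : ZMod 5) : w (j - 1) + w (j + 1) - w j = -(goldenRatio ^ 2) * w j := by
  have hφ := goldenRatio_sq
  have key : ∀ j : ZMod 5, w (j - 1) + w (j + 1) - w j = -(goldenRatio + 1) * w j := by
    intro j
    have e0 : w 0 = 2 := rfl
    have e1 : w 1 = -goldenRatio := rfl
    have e2 : w 2 = goldenRatio - 1 := rfl
    have e3 : w 3 = goldenRatio - 1 := rfl
    have e4 : w 4 = -goldenRatio := rfl
    have hj : j = 0 ∨ j = 1 ∨ j = 2 ∨ j = 3 ∨ j = 4 := by revert j; decide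
    rcases hj with h | h | h | h | h <;> subst h
    · have a1 : (0 : ZMod 5) - 1 = 4 := by decide
      have a2 : (0 : ZMod 5) + 1 = 1 := by decide
      rw [a1, a2, e0, e1, e4]
      ring
    · have a1 : (1 : ZMod 5) - 1 = 0 := by decide
      have a2 : (1 : ZMod 5) + 1 = 2 := by decide
      rw [a1, a2, e0, e1, e2]
      linear_combination -hφ
    · have a1 : (2 : ZMod 5) - 1 = 1 := by decide
      have a2 : (2 : ZMod 5) + 1 = 3 := by decide
      rw [a1, a2, e1, e2, e3]
      linear_combination hφ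
    · have a1 : (3 : ZMod 5) - 1 = 2 := by decide
      have a2 : (3 : ZMod 5) + 1 = 4 := by decide
      rw [a1, a2, e2, e3, e4]
      linear_combination hφ
    · have a1 : (4 : ZMod 5) - 1 = 3 := by decide
      have a2 : (4 : ZMod 5) + 1 = 0 := by decide
      rw [a1, a2, e0, e3, e4]
      linear_combination -hφ
  rw [key, hφ]

open Real in
lemma w_le (j : ZMod 5) : |w j| ≤ 2 := by
  have h1 := one_lt_goldenRatio
  have h2 := goldenRatio_lt_two
  have e0 : w 0 = 2 := rfl
  have e1 : w 1 = -goldenRatio := rfl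
  have e2 : w 2 = goldenRatio - 1 := rfl
  have e3 : w 3 = goldenRatio - 1 := rfl
  have e4 : w 4 = -goldenRatio := rfl
  have hj : j = 0 ∨ j = 1 ∨ j = 2 ∨ j = 3 ∨ j = 4 := by revert j; decide
  rcases hj with h | h | h | h | h <;> subst h
  · rw [e0, abs_le]; constructor <;> linarith
  · rw [e1, abs_le]; constructor <;> linarith
  · rw [e2, abs_le]; constructor <;> linarith
  · rw [e3, abs_le]; constructor <;> linarith
  · rw [e4, abs_le]; constructor <;> linarith

/-- the eigenvector -/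
noncomputable def v₁ : I → ℝ := fun i => match i with
  | (Sum.inl _, _) => 0
  | (Sum.inr j, a) => if a = 0 then w j else 0

lemma al_v₁ : al 1 v₁ = (-(Real.goldenRatio ^ 2)) • v₁ := by
  funext ⟨i, a⟩
  rw [Pi.smul_apply, smul_eq_mul]
  rcases i with i | j
  · change (0 : ℝ) = _ * 0
    ring
  · change (if a = 0 then w (j - 1) else 0) + (if a = 0 then w (j + 1) else 0) -
      (if a = 0 then w j else 0) = -(Real.goldenRatio ^ 2) * (if a = 0 then w j else 0)
    split_ifs
    · exact w_eq j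
    · ring

lemma v₁_le (i : I) : |v₁ i| ≤ 2 := by
  obtain ⟨i, a⟩ := i
  rcases i with i | j
  · change |(0 : ℝ)| ≤ 2
    norm_num
  · change |(if a = 0 then w j else 0)| ≤ 2
    split_ifs
    · exact w_le j
    · norm_num

lemma f₀_pow (k : ℕ) (c : ℝ) : (f₀ ^ k) (Quotient.mk (orbitSetoid Gam) (c • v₁)) =
    Quotient.mk (orbitSetoid Gam) (c • (-(Real.goldenRatio ^ 2)) ^ k • v₁) := by
  induction k generalizing c with
  | zero => simp
  | succ k ih =>
    rw [pow_succ, Equiv.Perm.mul_apply, f₀_mk, al_smul, al_v₁, smul_smul, ih]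
    congr 1
    rw [smul_smul, smul_smul]
    congr 1
    ring

lemma f₀_infinite (k : ℕ) (hk : 0 < k) : f₀ ^ k ≠ 1 := by
  intro h
  set μ : ℝ := (-(Real.goldenRatio ^ 2)) ^ k with hμ
  have hμ1 : 1 < |μ| := by
    rw [hμ, abs_pow, abs_neg, abs_pow]
    have := Real.one_lt_goldenRatio
    rw [abs_of_pos Real.goldenRatio_pos]
    exact one_lt_pow₀ (one_lt_pow₀ this (by norm_num)) hk.ne'
  set c : ℝ := (4 * (1 + |μ|))⁻¹ with hc
  have hcpos : 0 < c := by positivity
  have hcμ : c * (1 + |μ|) = 1 / 4 := by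
    rw [hc]
    field_simp
  have h1 := f₀_pow k c
  rw [h, Equiv.Perm.one_apply, ← hμ] at h1
  obtain ⟨_, ⟨t, ht, rfl⟩, h2⟩ := Quotient.exact h1
  have ht0 : t = 0 := by
    funext ⟨i, a⟩
    have h3 := congrArg (fun y : I → ℝ => y (i, a)) h2
    simp only [el_apply, Pi.smul_apply, smul_eq_mul] at h3
    have h4 : |sg t i • (c * v₁ (pm t i, a))| ≤ c * 2 := by
      rw [← Real.norm_eq_abs, norm_units_zsmul, Real.norm_eq_abs, abs_mul, abs_of_pos hcpos]
      exact mul_le_mul_of_nonneg_left (v₁_le _) hcpos.le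
    have h5 : |c * (μ * v₁ (i, a))| ≤ c * (|μ| * 2) := by
      rw [abs_mul, abs_mul, abs_of_pos hcpos]
      exact mul_le_mul_of_nonneg_left (mul_le_mul_of_nonneg_left (v₁_le _) (abs_nonneg _)) hcpos.le
    have h6 : |(t (i, a) : ℝ)| < 1 := by
      have : (t (i, a) : ℝ) = c * (μ * v₁ (i, a)) - sg t i • (c * v₁ (pm t i, a)) := by
        linarith
      rw [this]
      calc _ ≤ |c * (μ * v₁ (i, a))| + |sg t i • (c * v₁ (pm t i, a))| := abs_sub _ _
        _ ≤ c * (|μ| * 2) + c * 2 := add_le_add h5 h4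
        _ = 2 * (c * (1 + |μ|)) := by ring
        _ < 1 := by rw [hcμ]; norm_num
    have h7 : |t (i, a)| < 1 := by exact_mod_cast h6
    exact Int.abs_lt_one_iff.1 h7
  rw [ht0, el_zero] at h2
  have h8 := congrArg (fun y : I → ℝ => y (Sum.inr 0, 0)) h2
  simp only [Equiv.Perm.coe_one, id_eq, Pi.smul_apply, smul_eq_mul] at h8
  have h9 : v₁ (Sum.inr 0, 0) = 2 := rfl
  rw [h9] at h8
  have h10 : μ = 1 := by
    have : c * 2 * (μ - 1) = 0 := by linarith
    rcases mul_eq_zero.1 this with h' | h'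
    · exact absurd h' (by positivity)
    · linarith
  rw [h10, abs_one] at hμ1
  exact lt_irrefl _ hμ1

theorem aut_infinite {J : Matrix I I ℝ} (hJ : IsComplexStructure Gam J) :
    (autSet Gam J).Infinite := by
  have hf : ¬ IsOfFinOrder f₀ := by
    rw [isOfFinOrder_iff_pow_eq_one]
    rintro ⟨k, hk, h⟩
    exact f₀_infinite k hk h
  have hinj : Function.Injective (fun k : ℕ => f₀ ^ k) := injective_pow_iff_not_isOfFinOrder.2 hf
  exact (Set.infinite_range_of_injective hinj).mono (by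
    rintro _ ⟨k, rfl⟩
    exact f₀_pow_mem hJ k)

end Q47.FM
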